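import Mathlib

/-! TA2a: a group generated by unipotent elements whose long commutators are trivial is
unipotent. -/

set_option autoImplicit false

namespace Pool.Agent.H14.TA

open Module

universe u

/-- Left-normed commutators of the elements of `S`. -/
def LN {G : Type*} [Group G] (S : Set G) : ℕ → Set G
  | 0 => S
  | k + 1 => {g | ∃ a ∈ S, ∃ v ∈ LN S k, g = a * v * a⁻¹ * v⁻¹}

variable {G : Type*} [Group G]

/-- The subrepresentation. -/
noncomputable def resRep {E : Type*} [AddCommGroup E] [Module ℝ E] (ρ : G →* Module.End ℝ E)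
    (W : Submodule ℝ E) (hW : ∀ g, ∀ y ∈ W, ρ g y ∈ W) : G →* Module.End ℝ W where
  toFun g := (ρ g).restrict (hW g)
  map_one' := by
    ext y
    simp
  map_mul' g h := by
    ext y
    simp

theorem resRep_apply {E : Type*} [AddCommGroup E] [Module ℝ E] (ρ : G →* Module.End ℝ E)
    (W : Submodule ℝ E) (hW : ∀ g, ∀ y ∈ W, ρ g y ∈ W) (g : G) (y : W) :
    ((resRep ρ W hW g y : W) : E) = ρ g y := rfl

/-- The quotient representation. -/
noncomputable def quoRep {E : Type*} [AddCommGroup E] [Module ℝ E] (ρ : G →* Module.End ℝ E)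
    (W : Submodule ℝ E) (hW : ∀ g, ∀ y ∈ W, ρ g y ∈ W) : G →* Module.End ℝ (E ⧸ W) where
  toFun g := W.mapQ W (ρ g) (hW g)
  map_one' := by
    ext y
    simp
  map_mul' g h := by
    ext y
    simp

theorem quoRep_apply {E : Type*} [AddCommGroup E] [Module ℝ E] (ρ : G →* Module.End ℝ E)
    (W : Submodule ℝ E) (hW : ∀ g, ∀ y ∈ W, ρ g y ∈ W) (g : G) (y : E) :
    quoRep ρ W hW g (W.mkQ y) = W.mkQ (ρ g y) := rfl

theorem nil_comm {E : Type*} [AddCommGroup E] [Module ℝ E] (ρ : G →* Module.End ℝ E)
    (a v : G) (ha : IsNilpotent (ρ a - 1))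
    (hc : Commute (ρ a) (ρ (a * v * a⁻¹ * v⁻¹))) : IsNilpotent (ρ (a * v * a⁻¹ * v⁻¹) - 1) := by
  obtain ⟨A, hA⟩ : ∃ A, A = ρ a := ⟨_, rfl⟩
  obtain ⟨B, hB⟩ : ∃ B, B = ρ a⁻¹ := ⟨_, rfl⟩
  obtain ⟨V, hV⟩ : ∃ V, V = ρ v := ⟨_, rfl⟩
  obtain ⟨U, hU⟩ : ∃ U, U = ρ (a * v * a⁻¹ * v⁻¹) := ⟨_, rfl⟩
  rw [← hA] at ha hc
  rw [← hU] at hc ⊢
  have hAB : A * B = 1 := by rw [hA, hB, ← map_mul, mul_inv_cancel, map_one]
  have hBA : B * A = 1 := by rw [hA, hB, ← map_mul, inv_mul_cancel, map_one]
  have hUV : A * V * B = U * V := by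
    rw [hA, hB, hV, hU, ← map_mul, ← map_mul, ← map_mul]
    congr 1
    group
  -- the adjoint action
  have hB1 : IsNilpotent (B - 1) := by
    have e : B - 1 = (A - 1) * (-B) := by
      rw [sub_mul, mul_neg, hAB, one_mul]
      abel
    rw [e]
    refine Commute.isNilpotent_mul_right ?_ ha
    change (A - 1) * (-B) = (-B) * (A - 1)
    rw [sub_mul, mul_sub, mul_neg, neg_mul, hAB, hBA, one_mul, mul_one]
  have hL : IsNilpotent (LinearMap.mulLeft ℝ A - 1) := by
    have e : LinearMap.mulLeft ℝ A - 1 = LinearMap.mulLeft ℝ (A - 1) := by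
      ext x : 1
      simp [sub_mul]
    rw [e]
    exact (LinearMap.isNilpotent_mulLeft_iff ℝ (A - 1)).2 ha
  have hR : IsNilpotent (LinearMap.mulRight ℝ B - 1) := by
    have e : LinearMap.mulRight ℝ B - 1 = LinearMap.mulRight ℝ (B - 1) := by
      ext x : 1
      simp [mul_sub]
    rw [e]
    exact (LinearMap.isNilpotent_mulRight_iff ℝ (B - 1)).2 hB1
  have hLR : Commute (LinearMap.mulLeft ℝ A) (LinearMap.mulRight ℝ B) := by
    change LinearMap.mulLeft ℝ A * LinearMap.mulRight ℝ B =
      LinearMap.mulRight ℝ B * LinearMap.mulLeft ℝ A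
    ext x : 1
    simp [mul_assoc]
  have hAd : IsNilpotent (LinearMap.mulLeft ℝ A * LinearMap.mulRight ℝ B - 1) := by
    have e : LinearMap.mulLeft ℝ A * LinearMap.mulRight ℝ B - 1 =
        (LinearMap.mulLeft ℝ A - 1) * LinearMap.mulRight ℝ B + (LinearMap.mulRight ℝ B - 1) := by
      rw [sub_mul, one_mul]
      abel
    rw [e]
    have c1 : Commute (LinearMap.mulLeft ℝ A - 1) (LinearMap.mulRight ℝ B) :=
      hLR.sub_left (Commute.one_left _)
    refine Commute.isNilpotent_add ?_ (Commute.isNilpotent_mul_right c1 hL) hR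
    refine Commute.mul_left ?_ ?_
    · exact c1.sub_right (Commute.one_right _)
    · exact (Commute.refl _).sub_right (Commute.one_right _)
  obtain ⟨N, hN⟩ := hAd
  have key : ∀ m : ℕ, ((LinearMap.mulLeft ℝ A * LinearMap.mulRight ℝ B - 1) ^ m) V =
      (U - 1) ^ m * V := by
    intro m
    induction m with
    | zero => simp
    | succ m ih =>
      rw [pow_succ']
      have h1 : ((LinearMap.mulLeft ℝ A * LinearMap.mulRight ℝ B - 1) *
        (LinearMap.mulLeft ℝ A * LinearMap.mulRight ℝ B - 1) ^ m) V =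
        (LinearMap.mulLeft ℝ A * LinearMap.mulRight ℝ B - 1)
          (((LinearMap.mulLeft ℝ A * LinearMap.mulRight ℝ B - 1) ^ m) V) := rfl
      rw [h1, ih]
      have h2 : (LinearMap.mulLeft ℝ A * LinearMap.mulRight ℝ B - 1) ((U - 1) ^ m * V) =
        A * ((U - 1) ^ m * V * B) - (U - 1) ^ m * V := rfl
      have h3 : A * (U - 1) ^ m = (U - 1) ^ m * A :=
        ((hc.sub_right (Commute.one_right _)).pow_right m).eq
      rw [h2, mul_assoc, ← mul_assoc A, h3, mul_assoc, ← mul_assoc A, hUV, pow_succ]
      rw [mul_assoc, sub_mul, one_mul, mul_sub]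
  refine ⟨N, ?_⟩
  have h4 : (U - 1) ^ N * V = 0 := by
    rw [← key N, hN]
    rfl
  have h5 : (U - 1) ^ N * V * ρ v⁻¹ = 0 := by rw [h4, zero_mul]
  rwa [mul_assoc, hV, ← map_mul, mul_inv_cancel, map_one, mul_one] at h5

theorem fix_exists {S : Set G} (hS : Subgroup.closure S = ⊤) (L : ℕ) :
    ∀ (d : ℕ) (E : Type u) [AddCommGroup E] [Module ℝ E] [FiniteDimensional ℝ E]
      (ρ : G →* Module.End ℝ E), finrank ℝ E = d → Nontrivial E →
      (∀ s ∈ S, IsNilpotent (ρ s - 1)) → (∀ g ∈ LN S L, ρ g = 1) →
      ∃ v : E, v ≠ 0 ∧ ∀ g, ρ g v = v := by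
  intro d
  induction d using Nat.strong_induction_on with
  | _ d ih =>
    intro E _ _ _ ρ hd hE huni hL
    classical
    by_cases h0 : ∀ s ∈ S, ρ s = 1
    · obtain ⟨v, hv⟩ := exists_ne (0 : E)
      refine ⟨v, hv, fun g => ?_⟩
      have hg : g ∈ Subgroup.closure S := by rw [hS]; trivial
      have : ρ g = 1 := by
        have hle : Subgroup.closure S ≤ ρ.ker := by
          rw [Subgroup.closure_le]
          intro s hs
          exact h0 s hs
        exact hle hg
      rw [this]
      rfl
    · have hex : ∃ k, ∀ g ∈ LN S k, ρ g = 1 := ⟨L, hL⟩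
      obtain ⟨k, hk⟩ : ∃ k, k = Nat.find hex := ⟨_, rfl⟩
      have hk1 : ∀ g ∈ LN S k, ρ g = 1 := by rw [hk]; exact Nat.find_spec hex
      have hk2 : k ≠ 0 := by
        rintro rfl
        exact h0 hk1
      obtain ⟨j, rfl⟩ := Nat.exists_eq_succ_of_ne_zero hk2
      have hj : ¬ ∀ g ∈ LN S j, ρ g = 1 := Nat.find_min hex (by omega)
      push Not at hj
      obtain ⟨u, hu, hu1⟩ := hj
      have hcom : ∀ a ∈ S, Commute (ρ a) (ρ u) := by
        intro a ha
        have h1 : ρ (a * u * a⁻¹ * u⁻¹) = 1 := hk1 _ ⟨a, ha, u, hu, rfl⟩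
        have h2 : a * u = (a * u * a⁻¹ * u⁻¹) * (u * a) := by group
        change ρ a * ρ u = ρ u * ρ a
        rw [← map_mul, h2, map_mul, h1, one_mul, map_mul]
      have hcomG : ∀ g, Commute (ρ g) (ρ u) := by
        intro g
        have hg : g ∈ Subgroup.closure S := by rw [hS]; trivial
        induction hg using Subgroup.closure_induction with
        | mem x hx => exact hcom x hx
        | one => rw [map_one]; exact Commute.one_left _
        | mul x y _ _ hx hy => rw [map_mul]; exact hx.mul_left hy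
        | inv x _ hx =>
          have h1 : ρ x⁻¹ * ρ x = 1 := by rw [← map_mul, inv_mul_cancel, map_one]
          have h2 : ρ x * ρ x⁻¹ = 1 := by rw [← map_mul, mul_inv_cancel, map_one]
          change ρ x⁻¹ * ρ u = ρ u * ρ x⁻¹
          calc ρ x⁻¹ * ρ u = ρ x⁻¹ * ρ u * (ρ x * ρ x⁻¹) := by rw [h2, mul_one]
            _ = ρ x⁻¹ * (ρ u * ρ x) * ρ x⁻¹ := by simp only [mul_assoc]
            _ = ρ x⁻¹ * (ρ x * ρ u) * ρ x⁻¹ := by rw [hx.eq]
            _ = (ρ x⁻¹ * ρ x) * ρ u * ρ x⁻¹ := by simp only [mul_assoc]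
            _ = ρ u * ρ x⁻¹ := by rw [h1, one_mul]
      have hnil : IsNilpotent (ρ u - 1) := by
        cases j with
        | zero => exact huni u hu
        | succ j =>
          obtain ⟨a, ha, v, hv, rfl⟩ := hu
          exact nil_comm ρ a v (huni a ha) (hcom a ha)
      obtain ⟨W, hW⟩ : ∃ W, W = LinearMap.ker (ρ u - 1) := ⟨_, rfl⟩
      have hWinv : ∀ g, ∀ y ∈ W, ρ g y ∈ W := by
        intro g y hy
        rw [hW, LinearMap.mem_ker] at hy ⊢
        have h1 := congrArg (fun φ : Module.End ℝ E => φ y)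
          ((hcomG g).symm.sub_left (Commute.one_left _)).eq
        have h2 : (ρ u - 1) (ρ g y) = ρ g ((ρ u - 1) y) := h1
        rw [h2, hy, map_zero]
      have hWtop : W ≠ ⊤ := by
        intro h
        apply hu1
        rw [hW, LinearMap.ker_eq_top, sub_eq_zero] at h
        exact h
      have hWbot : W ≠ ⊥ := by
        intro h
        rw [hW, LinearMap.ker_eq_bot] at h
        obtain ⟨N, hN⟩ := hnil
        obtain ⟨v, hv⟩ := exists_ne (0 : E)
        have h3 : Function.Injective (⇑((ρ u - 1) ^ N : Module.End ℝ E)) := by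
          rw [Module.End.coe_pow]
          exact h.iterate N
        rw [hN] at h3
        apply hv
        apply h3
        rfl
      have hlt : finrank ℝ W < d := by
        rw [← hd]
        exact Submodule.finrank_lt hWtop
      have hWn : Nontrivial W := Submodule.nontrivial_iff_ne_bot.2 hWbot
      obtain ⟨v, hv, hv2⟩ := ih (finrank ℝ W) hlt W (resRep ρ W hWinv) rfl hWn
        (by
          intro s hs
          obtain ⟨N, hN⟩ := huni s hs
          refine ⟨N, ?_⟩
          ext y
          have h1 : ∀ m : ℕ, ((((resRep ρ W hWinv s - 1) ^ m) y : W) : E) =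
              ((ρ s - 1) ^ m) (y : E) := by
            intro m
            induction m with
            | zero => rfl
            | succ m ihm =>
              rw [pow_succ', pow_succ']
              change ((((resRep ρ W hWinv s - 1) (((resRep ρ W hWinv s - 1) ^ m) y) : W)) : E) =
                (ρ s - 1) (((ρ s - 1) ^ m) (y : E))
              rw [← ihm]
              rfl
          rw [h1, hN]
          rfl)
        (by
          intro g hg
          ext y
          rw [resRep_apply, hL g hg]
          rfl)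
      refine ⟨v, ?_, fun g => ?_⟩
      · intro h
        exact hv (Subtype.ext h)
      · have := congrArg (fun z : W => (z : E)) (hv2 g)
        exact this

/-- Products of `dim E` factors `ρ g - 1` vanish. -/
theorem prod_zero {S : Set G} (hS : Subgroup.closure S = ⊤) (L : ℕ) :
    ∀ (d : ℕ) (E : Type u) [AddCommGroup E] [Module ℝ E] [FiniteDimensional ℝ E]
      (ρ : G →* Module.End ℝ E), finrank ℝ E = d →
      (∀ s ∈ S, IsNilpotent (ρ s - 1)) → (∀ g ∈ LN S L, ρ g = 1) →
      ∀ l : List G, d ≤ l.length → (l.map (fun g => ρ g - 1)).prod = 0 := by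
  intro d
  induction d with
  | zero =>
    intro E _ _ _ ρ hd _ _ l _
    have : Subsingleton E := Module.finrank_zero_iff.1 hd
    ext y
    exact Subsingleton.elim _ _
  | succ d ih =>
    intro E _ _ _ ρ hd huni hL l hl
    have hE : Nontrivial E := by
      apply Module.nontrivial_of_finrank_pos (R := ℝ)
      omega
    obtain ⟨v, hv, hv2⟩ := fix_exists hS L (d + 1) E ρ hd hE huni hL
    cases l with
    | nil => simp at hl
    | cons g l =>
      obtain ⟨W, hW⟩ : ∃ W, W = Submodule.span ℝ {v} := ⟨_, rfl⟩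
      have hfix : ∀ g, ∀ y ∈ W, ρ g y = y := by
        intro g y hy
        rw [hW, Submodule.mem_span_singleton] at hy
        obtain ⟨c, rfl⟩ := hy
        rw [map_smul, hv2]
      have hWinv : ∀ g, ∀ y ∈ W, ρ g y ∈ W := by
        intro g y hy
        rw [hfix g y hy]
        exact hy
      have hdim : finrank ℝ (E ⧸ W) = d := by
        have h1 := Submodule.finrank_quotient_add_finrank W
        have h2 : finrank ℝ W = 1 := by
          rw [hW]
          exact finrank_span_singleton hv
        omega
      have hq := ih (E ⧸ W) (quoRep ρ W hWinv) hdim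
        (by
          intro s hs
          obtain ⟨N, hN⟩ := huni s hs
          refine ⟨N, ?_⟩
          have h1 : ∀ m : ℕ, ∀ y : E, ((quoRep ρ W hWinv s - 1) ^ m) (W.mkQ y) =
              W.mkQ (((ρ s - 1) ^ m) y) := by
            intro m
            induction m with
            | zero => intro y; rfl
            | succ m ihm =>
              intro y
              rw [pow_succ, pow_succ]
              change ((quoRep ρ W hWinv s - 1) ^ m) ((quoRep ρ W hWinv s - 1) (W.mkQ y)) =
                W.mkQ (((ρ s - 1) ^ m) ((ρ s - 1) y))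
              rw [← ihm]
              rfl
          apply Submodule.linearMap_qext
          ext y
          change ((quoRep ρ W hWinv s - 1) ^ N) (W.mkQ y) = 0
          rw [h1, hN]
          simp)
        (by
          intro g hg
          apply Submodule.linearMap_qext
          ext y
          change quoRep ρ W hWinv g (W.mkQ y) = W.mkQ y
          rw [quoRep_apply, hL g hg]
          rfl)
        l (by simpa using hl)
      have h2 : ∀ (l : List G) (y : E), ((l.map (fun g => quoRep ρ W hWinv g - 1)).prod)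
          (W.mkQ y) = W.mkQ (((l.map (fun g => ρ g - 1)).prod) y) := by
        intro l
        induction l with
        | nil => intro y; rfl
        | cons g l ihl =>
          intro y
          rw [List.map_cons, List.prod_cons, List.map_cons, List.prod_cons]
          change (quoRep ρ W hWinv g - 1) (((l.map (fun g => quoRep ρ W hWinv g - 1)).prod)
            (W.mkQ y)) = W.mkQ ((ρ g - 1) (((l.map (fun g => ρ g - 1)).prod) y))
          rw [ihl]
          rfl
      ext y
      rw [List.map_cons, List.prod_cons]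
      change (ρ g - 1) (((l.map (fun g => ρ g - 1)).prod) y) = 0
      have h3 : ((l.map (fun g => ρ g - 1)).prod) y ∈ W := by
        have h4 := h2 l y
        rw [hq] at h4
        have h5 : W.mkQ (((l.map (fun g => ρ g - 1)).prod) y) = 0 := h4.symm
        rwa [Submodule.mkQ_apply, Submodule.Quotient.mk_eq_zero] at h5
      change ρ g _ - _ = 0
      rw [hfix g _ h3, sub_eq_zero]
      rfl

end Pool.Agent.H14.TA
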