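import Mathlib
import Pool.Agent.H30.T4.Defs
import Pool.Agent.H14.HR.Final
import Pool.Agent.H14.HR.Ab
import Pool.Agent.H14.HP.HypEx
import Pool.Agent.H71.AU.Fit

/-! TA15: reduction to a unipotent subgroup without proper invariant affine subspaces. -/

set_option autoImplicit false

namespace Pool.Agent.H14.TA

open NormedSpace Module Pool.Agent.H71.AU Pool.Agent.H14.HP Pool.Agent.H14.HR Pool.Agent.H30.T4

variable {E : Type*} [NormedAddCommGroup E] [NormedSpace ℝ E] [CompleteSpace E]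
  [FiniteDimensional ℝ E] {Γ : Type*} [Group Γ] {π : Γ →* (E →L[ℝ] E)} {τ : E →L[ℝ] ℝ} {x₀ : E}
  {A : Subgroup Γ} {n : ℕ}

omit [CompleteSpace E] in
theorem hyp_vs (S : Sys π τ) (φ : E →L[ℝ] ℝ) (hφ : φ ≠ 0) (x : E) (hx : τ x = 1)
    (hφx : φ x = 0) (H : Hyp π τ A φ) : VS Γ :=
  (final_iff (hyp_coc S H hx hφx hφ) ⟨x, hx⟩).2 (st_vs S H hx hφx)

/-- The range of `f`. -/
def rangeSub (f : (Fin n → ℤ) →+ Additive A) : Subgroup Γ where
  carrier := {g | ∃ z, g = ((f z).toMul : A)}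
  mul_mem' := by
    rintro _ _ ⟨z, rfl⟩ ⟨w, rfl⟩
    refine ⟨z + w, ?_⟩
    rw [map_add]
    rfl
  one_mem' := ⟨0, by rw [map_zero]; rfl⟩
  inv_mem' := by
    rintro _ ⟨z, rfl⟩
    refine ⟨-z, ?_⟩
    rw [map_neg]
    rfl

theorem red (n : ℕ) (S : Sys π τ) (hinj : Function.Injective π) (hx : ∃ x, τ x = 1)
    (hA : ∀ a ∈ A, ∀ b ∈ A, a * b = b * a)
    (hf : ∃ f : (Fin n → ℤ) →+ Additive A, Function.Injective f) (hE : finrank ℝ E = n + 2)
    (hV : ¬ VS Γ) : ∃ (A' : Subgroup Γ) (x₀ : E), Cf π τ x₀ A' n := by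
  obtain ⟨f, hf⟩ := hf
  obtain ⟨x₁, hx₁⟩ := hx
  have hA' : ∀ a ∈ rangeSub f, ∀ b ∈ rangeSub f, a * b = b * a := by
    rintro _ ⟨z, rfl⟩ _ ⟨w, rfl⟩
    exact hA _ (f z).toMul.2 _ (f w).toMul.2
  obtain ⟨f', hf'⟩ : ∃ f' : (Fin n → ℤ) →+ Additive (rangeSub f), Function.Bijective f' := by
    refine ⟨{ toFun := fun z => Additive.ofMul ⟨((f z).toMul : A), z, rfl⟩
              map_zero' := ?_
              map_add' := ?_ }, ?_, ?_⟩
    · apply Additive.toMul.injective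
      apply Subtype.ext
      change (((f 0).toMul : A) : Γ) = 1
      rw [map_zero]
      rfl
    · intro z w
      apply Additive.toMul.injective
      apply Subtype.ext
      change (((f (z + w)).toMul : A) : Γ) = (((f z).toMul : A) : Γ) * (((f w).toMul : A) : Γ)
      rw [map_add]
      rfl
    · intro z w h
      apply hf
      have h1 := congrArg (fun u : Additive (rangeSub f) => ((u.toMul : rangeSub f) : Γ)) h
      have h2 : (((f z).toMul : A) : Γ) = (((f w).toMul : A) : Γ) := h1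
      apply Additive.toMul.injective
      exact Subtype.ext h2
    · intro u
      obtain ⟨z, hz⟩ := (u.toMul : rangeSub f).2
      refine ⟨z, ?_⟩
      apply Additive.toMul.injective
      apply Subtype.ext
      exact hz.symm
  have hno : ∀ (M : Submodule ℝ E), (∀ a ∈ rangeSub f, ∀ y ∈ M, π a y ∈ M) →
      (∃ x ∈ M, τ x = 1) → M = ⊤ := by
    intro M hM hx
    by_contra hne
    obtain ⟨x, hxM, hx⟩ := hx
    obtain ⟨φ, h0, hp, HA⟩ := hyp_exists S (rangeSub f) hA' n f' hf'.1 hE M hM hne x hxM hx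
    exact hV (hyp_vs S φ h0 x hx hp HA)
  have hcom : ∀ a ∈ rangeSub f, ∀ b ∈ rangeSub f, Commute (π a) (π b) := by
    intro a ha b hb
    change π a * π b = π b * π a
    rw [← map_mul, ← map_mul, hA' a ha b hb]
  refine ⟨rangeSub f, x₁, ⟨S, hinj, hx₁, hA', ?_, ⟨f', hf'⟩, hE, hno⟩⟩
  -- unipotency
  obtain ⟨x₀, hx₀, hx₀A⟩ := fit
    ((fun a : Γ => ((π a : E →L[ℝ] E) : E →ₗ[ℝ] E)) '' (rangeSub f : Set Γ))
    (by
      rintro _ ⟨a, ha, rfl⟩ _ ⟨b, hb, rfl⟩
      change _ * _ = _ * _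
      ext y
      exact congrArg (fun φ : E →L[ℝ] E => φ y) (hcom a ha b hb).eq)
    (τ : E →ₗ[ℝ] ℝ)
    (by
      rintro _ ⟨a, ha, rfl⟩ y
      exact S.tau a y)
    (by
      intro h
      have h1 := congrArg (fun φ : E →ₗ[ℝ] ℝ => φ x₁) h
      have h2 : τ x₁ = 0 := h1
      rw [hx₁] at h2
      exact one_ne_zero h2)
  obtain ⟨N, hN⟩ : ∃ N, N = finrank ℝ E + 1 := ⟨_, rfl⟩
  rw [← hN] at hx₀A
  have hpow : ∀ (a : Γ) (m : ℕ) (y : E),
      (((((π a : E →L[ℝ] E) : E →ₗ[ℝ] E) : Module.End ℝ E) - 1) ^ m) y = ((π a - 1) ^ m) y := by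
    intro a m
    induction m with
    | zero => intro y; rfl
    | succ m ih =>
      intro y
      rw [pow_succ, pow_succ]
      change (((((π a : E →L[ℝ] E) : E →ₗ[ℝ] E) : Module.End ℝ E) - 1) ^ m) (π a y - y) =
        ((π a - 1) ^ m) (π a y - y)
      exact ih _
  let M : Submodule ℝ E :=
    { carrier := {y | ∀ a ∈ rangeSub f, ((π a - 1) ^ N) y = 0}
      add_mem' := by
        intro y z hy hz a ha
        rw [map_add, hy a ha, hz a ha, add_zero]
      zero_mem' := by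
        intro a _
        exact map_zero _
      smul_mem' := by
        intro c y hy a ha
        rw [map_smul, hy a ha, smul_zero] }
  have hM : M = ⊤ := by
    refine hno M ?_ ⟨x₀, ?_, hx₀⟩
    · intro a ha y hy b hb
      have hc := ((hcom b hb a ha).sub_left (Commute.one_left _)).pow_left N
      have h1 := congrArg (fun φ : E →L[ℝ] E => φ y) hc.eq
      have h2 : ((π b - 1) ^ N) (π a y) = π a (((π b - 1) ^ N) y) := h1
      rw [h2, hy b hb, map_zero]
    · intro a ha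
      rw [← hpow]
      exact hx₀A _ ⟨a, ha, rfl⟩
  intro a ha
  refine ⟨N, ?_⟩
  ext y
  have h1 : y ∈ M := by rw [hM]; trivial
  exact h1 a ha

end Pool.Agent.H14.TA
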