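import Mathlib
import Pool.Agent.H14.HP.Defs

/-! TA1: composition series and the ideal of operators that move them down; block diagonal
parts. -/

set_option autoImplicit false

namespace Pool.Agent.H14.TA

open NormedSpace Module Pool.Agent.H14.HP Filter Topology

variable {E : Type*} [NormedAddCommGroup E] [NormedSpace ℝ E] {Γ : Type*} [Group Γ]
  {π : Γ →* (E →L[ℝ] E)} {τ : E →L[ℝ] ℝ} {F : ℕ → Submodule ℝ E} {s : ℕ}

/-- A composition series. -/
structure Ser (π : Γ →* (E →L[ℝ] E)) (F : ℕ → Submodule ℝ E) (s : ℕ) : Prop where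
  top : F 0 = ⊤
  bot : F s = ⊥
  anti : ∀ i, F (i + 1) ≤ F i
  inv : ∀ g i, ∀ y ∈ F i, π g y ∈ F i
  irr : ∀ i, i < s → ∀ W : Submodule ℝ E, (∀ g, ∀ y ∈ W, π g y ∈ W) → F (i + 1) ≤ W → W ≤ F i →
    W = F (i + 1) ∨ W = F i

/-- The operators that move the series down. -/
def JJ (F : ℕ → Submodule ℝ E) : Submodule ℝ (E →L[ℝ] E) where
  carrier := {b | ∀ i, ∀ y ∈ F i, b y ∈ F (i + 1)}
  add_mem' := by
    intro a b ha hb i y hy
    exact (F (i + 1)).add_mem (ha i y hy) (hb i y hy)
  zero_mem' := by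
    intro i y _
    exact (F (i + 1)).zero_mem
  smul_mem' := by
    intro c a ha i y hy
    exact (F (i + 1)).smul_mem c (ha i y hy)

theorem mem_JJ {b : E →L[ℝ] E} : b ∈ JJ F ↔ ∀ i, ∀ y ∈ F i, b y ∈ F (i + 1) := Iff.rfl

/-- The operators that preserve the series. -/
def PP (F : ℕ → Submodule ℝ E) : Submodule ℝ (E →L[ℝ] E) where
  carrier := {b | ∀ i, ∀ y ∈ F i, b y ∈ F i}
  add_mem' := by
    intro a b ha hb i y hy
    exact (F i).add_mem (ha i y hy) (hb i y hy)
  zero_mem' := by
    intro i y _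
    exact (F i).zero_mem
  smul_mem' := by
    intro c a ha i y hy
    exact (F i).smul_mem c (ha i y hy)

theorem mem_PP {b : E →L[ℝ] E} : b ∈ PP F ↔ ∀ i, ∀ y ∈ F i, b y ∈ F i := Iff.rfl

theorem PP_mul {a b : E →L[ℝ] E} (ha : a ∈ PP F) (hb : b ∈ PP F) : a * b ∈ PP F :=
  fun i y hy => ha i _ (hb i y hy)

theorem PP_one : (1 : E →L[ℝ] E) ∈ PP F := fun _ _ hy => hy

theorem ser_le (anti : ∀ i, F (i + 1) ≤ F i) {i j : ℕ} (h : i ≤ j) : F j ≤ F i :=
  antitone_nat_of_succ_le anti h

theorem JJ_le_PP (anti : ∀ i, F (i + 1) ≤ F i) : JJ F ≤ PP F :=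
  fun _ hb i y hy => anti i (hb i y hy)

/-- A system of projections adapted to a series. -/
structure Grad (F : ℕ → Submodule ℝ E) (s : ℕ) (P : ℕ → (E →L[ℝ] E)) : Prop where
  ne : ∀ i j, i ≠ j → ∀ y, P i (P j y) = 0
  eq : ∀ i y, P i (P i y) = P i y
  sum : ∑ i ∈ Finset.range s, P i = 1
  mem : ∀ i y, P i y ∈ F i
  van : ∀ j i, j < i → ∀ y ∈ F i, P j y = 0

theorem exists_grad [FiniteDimensional ℝ E] (top : F 0 = ⊤) (bot : F s = ⊥)
    (anti : ∀ i, F (i + 1) ≤ F i) : ∃ P, Grad F s P := by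
  have hR : ∀ i, ∃ R : E →L[ℝ] E, (∀ y, R y ∈ F i) ∧ ∀ y ∈ F i, R y = y := by
    intro i
    obtain ⟨g, hg⟩ := LinearMap.exists_leftInverse_of_injective (F i).subtype
      (Submodule.ker_subtype _)
    refine ⟨LinearMap.toContinuousLinearMap ((F i).subtype ∘ₗ g), fun y => (g y).2,
      fun y hy => ?_⟩
    have h1 := congrArg (fun φ : F i →ₗ[ℝ] F i => ((φ ⟨y, hy⟩ : F i) : E)) hg
    exact h1
  choose R hR1 hR2 using hR
  obtain ⟨Q, hQ0, hQs⟩ : ∃ Q : ℕ → (E →L[ℝ] E), Q 0 = 1 ∧ ∀ i, Q (i + 1) = R (i + 1) * Q i :=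
    ⟨fun n => Nat.rec 1 (fun i q => R (i + 1) * q) n, rfl, fun _ => rfl⟩
  have ha : ∀ i y, Q i y ∈ F i := by
    intro i
    cases i with
    | zero => intro y; rw [top]; trivial
    | succ i => intro y; rw [hQs]; exact hR1 _ _
  have hb : ∀ i, ∀ y ∈ F i, Q i y = y := by
    intro i
    induction i with
    | zero => intro y _; rw [hQ0]; rfl
    | succ i ih =>
      intro y hy
      rw [hQs]
      change R (i + 1) (Q i y) = y
      rw [ih y (anti i hy), hR2 _ y hy]
  have hc : ∀ i j, i ≤ j → ∀ y, Q i (Q j y) = Q j y :=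
    fun i j hij y => hb i _ (ser_le anti hij (ha j y))
  have hd : ∀ i j, i ≤ j → ∀ y, Q j (Q i y) = Q j y := by
    intro i j hij
    induction j, hij using Nat.le_induction with
    | base => intro y; exact hb i _ (ha i y)
    | succ j _ ih =>
      intro y
      rw [hQs]
      change R (j + 1) (Q j (Q i y)) = R (j + 1) (Q j y)
      rw [ih]
  refine ⟨fun i => Q i - Q (i + 1), ?_, ?_, ?_, ?_, ?_⟩
  · intro i j hij y
    change Q i (Q j y - Q (j + 1) y) - Q (i + 1) (Q j y - Q (j + 1) y) = 0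
    rw [map_sub, map_sub]
    rcases lt_or_gt_of_ne hij with h | h
    · rw [hc i j h.le, hc i (j + 1) (by omega), hc (i + 1) j h, hc (i + 1) (j + 1) (by omega)]
      abel
    · rw [hd j i h.le, hd (j + 1) i h, hd j (i + 1) (by omega), hd (j + 1) (i + 1) (by omega)]
      abel
  · intro i y
    change Q i (Q i y - Q (i + 1) y) - Q (i + 1) (Q i y - Q (i + 1) y) = Q i y - Q (i + 1) y
    rw [map_sub, map_sub, hc i i le_rfl, hc i (i + 1) (by omega), hd i (i + 1) (by omega),
      hc (i + 1) (i + 1) le_rfl]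
    abel
  · rw [Finset.sum_range_sub', hQ0]
    have : Q s = 0 := by
      ext y
      have := ha s y
      rw [bot, Submodule.mem_bot] at this
      rw [this]
      rfl
    rw [this, sub_zero]
  · intro i y
    exact (F i).sub_mem (ha i y) (anti i (ha (i + 1) y))
  · intro j i hji y hy
    change Q j y - Q (j + 1) y = 0
    rw [hb j y (ser_le anti hji.le hy), hb (j + 1) y (ser_le anti hji hy), sub_self]

variable {P : ℕ → (E →L[ℝ] E)}

/-- The block diagonal part. -/
noncomputable def DD (P : ℕ → (E →L[ℝ] E)) (s : ℕ) (b : E →L[ℝ] E) : E →L[ℝ] E :=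
  ∑ i ∈ Finset.range s, P i * b * P i

theorem DD_cont (P : ℕ → (E →L[ℝ] E)) (s : ℕ) : Continuous (DD P s) := by
  unfold DD
  refine continuous_finset_sum _ fun i _ => ?_
  exact (continuous_const.mul continuous_id).mul continuous_const

theorem DD_add (a b : E →L[ℝ] E) : DD P s (a + b) = DD P s a + DD P s b := by
  unfold DD
  rw [← Finset.sum_add_distrib]
  refine Finset.sum_congr rfl fun i _ => ?_
  rw [mul_add, add_mul]

theorem DD_sub (a b : E →L[ℝ] E) : DD P s (a - b) = DD P s a - DD P s b := by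
  unfold DD
  rw [← Finset.sum_sub_distrib]
  refine Finset.sum_congr rfl fun i _ => ?_
  rw [mul_sub, sub_mul]

theorem DD_smul (c : ℝ) (a : E →L[ℝ] E) : DD P s (c • a) = c • DD P s a := by
  unfold DD
  rw [Finset.smul_sum]
  refine Finset.sum_congr rfl fun i _ => ?_
  rw [mul_smul_comm, smul_mul_assoc]

theorem DD_zero : DD P s 0 = 0 := by
  unfold DD
  simp

theorem DD_one (G : Grad F s P) : DD P s 1 = 1 := by
  unfold DD
  rw [← G.sum]
  refine Finset.sum_congr rfl fun i _ => ?_
  rw [G.sum, mul_one]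
  ext y
  exact G.eq i y

theorem DD_mem (G : Grad F s P) (anti : ∀ i, F (i + 1) ≤ F i) (a : E →L[ℝ] E) :
    DD P s a ∈ PP F := by
  intro i y hy
  unfold DD
  rw [ContinuousLinearMap.sum_apply]
  refine Submodule.sum_mem _ fun k _ => ?_
  change P k (a (P k y)) ∈ F i
  rcases lt_or_ge k i with h | h
  · rw [G.van k i h y hy, map_zero, map_zero]
    exact Submodule.zero_mem _
  · exact ser_le anti h (G.mem k _)

theorem DD_mul (G : Grad F s P) {a b : E →L[ℝ] E} (ha : a ∈ PP F)
    (hb : b ∈ PP F) : DD P s (a * b) = DD P s a * DD P s b := by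
  have h1 : ∀ i ∈ Finset.range s, P i * (a * b) * P i =
      ∑ j ∈ Finset.range s, P i * a * P i * (P j * b * P j) := by
    intro i hi
    rw [Finset.sum_eq_single i]
    · -- insert the sum of projections
      have h2 : P i * (a * b) * P i = ∑ j ∈ Finset.range s, P i * a * (P j * (b * P i)) := by
        rw [← Finset.mul_sum, ← Finset.sum_mul, G.sum, one_mul]
        simp only [mul_assoc]
      rw [h2, Finset.sum_eq_single i]
      · ext y
        change P i (a (P i (b (P i y)))) = P i (a (P i (P i (b (P i y)))))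
        rw [G.eq]
      · intro j _ hj
        ext y
        change P i (a (P j (b (P i y)))) = 0
        rcases lt_or_gt_of_ne hj with h | h
        · rw [G.van j i h _ (hb i _ (G.mem i y)), map_zero, map_zero]
        · rw [G.van i j h _ (ha j _ (G.mem j _))]
      · intro h
        exact absurd hi h
    · intro j _ hj
      ext y
      change P i (a (P i (P j (b (P j y))))) = 0
      rw [G.ne i j (Ne.symm hj), map_zero, map_zero]
    · intro h
      exact absurd hi h
  unfold DD
  rw [Finset.sum_mul, Finset.sum_congr rfl h1]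
  refine Finset.sum_congr rfl fun i _ => ?_
  rw [Finset.mul_sum]

theorem DD_DD (G : Grad F s P) (a : E →L[ℝ] E) : DD P s (DD P s a) = DD P s a := by
  unfold DD
  refine Finset.sum_congr rfl fun i hi => ?_
  rw [Finset.mul_sum, Finset.sum_mul, Finset.sum_eq_single i]
  · ext y
    change P i (P i (a (P i (P i y)))) = P i (a (P i y))
    rw [G.eq, G.eq]
  · intro j _ hj
    ext y
    change P i (P j (a (P j (P i y)))) = 0
    rw [G.ne i j (Ne.symm hj)]
  · intro h
    exact absurd hi h

theorem DD_JJ (G : Grad F s P) {a : E →L[ℝ] E} (ha : a ∈ JJ F) : DD P s a = 0 := by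
  unfold DD
  refine Finset.sum_eq_zero fun i _ => ?_
  ext y
  change P i (a (P i y)) = 0
  exact G.van i (i + 1) (by omega) _ (ha i _ (G.mem i y))

theorem JJ_of_DD (G : Grad F s P) (bot : F s = ⊥) (anti : ∀ i, F (i + 1) ≤ F i)
    {a : E →L[ℝ] E} (ha : a ∈ PP F) (h0 : DD P s a = 0) : a ∈ JJ F := by
  intro i y hy
  have hone : ∀ z : E, z = ∑ k ∈ Finset.range s, P k z := by
    intro z
    have := congrArg (fun φ : E →L[ℝ] E => φ z) G.sum
    simp only [ContinuousLinearMap.sum_apply] at this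
    rw [this]
    rfl
  have hPi : ∀ i ∈ Finset.range s, ∀ y, P i (a (P i y)) = 0 := by
    intro i hi y
    have h1 : P i (DD P s a (P i y)) = P i (a (P i y)) := by
      unfold DD
      rw [ContinuousLinearMap.sum_apply, map_sum, Finset.sum_eq_single i]
      · change P i (P i (a (P i (P i y)))) = _
        rw [G.eq, G.eq]
      · intro j _ hj
        change P i (P j (a (P j (P i y)))) = 0
        rw [G.ne i j (Ne.symm hj)]
      · intro h
        exact absurd hi h
    rw [← h1, h0]
    simp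
  rw [hone y, map_sum]
  refine Submodule.sum_mem _ fun k hk => ?_
  rcases lt_trichotomy k i with h | h | h
  · rw [G.van k i h y hy, map_zero]
    exact Submodule.zero_mem _
  · subst h
    rw [hone (a (P k y))]
    refine Submodule.sum_mem _ fun j hj => ?_
    rcases lt_trichotomy j k with h | h | h
    · rw [G.van j k h _ (ha k _ (G.mem k y))]
      exact Submodule.zero_mem _
    · subst h
      rw [hPi j hj]
      exact Submodule.zero_mem _
    · exact ser_le anti h (G.mem j _)
  · exact ser_le anti h (ha k _ (G.mem k y))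

/-- The scaling. -/
noncomputable def TT (P : ℕ → (E →L[ℝ] E)) (s : ℕ) (δ : ℝ) : E →L[ℝ] E :=
  ∑ i ∈ Finset.range s, δ ^ i • P i

theorem TT_apply (P : ℕ → (E →L[ℝ] E)) (s : ℕ) (δ : ℝ) (y : E) :
    TT P s δ y = ∑ i ∈ Finset.range s, δ ^ i • P i y := by
  unfold TT
  simp [ContinuousLinearMap.sum_apply]

theorem TT_mul (G : Grad F s P) {δ : ℝ} (hδ : δ ≠ 0) : TT P s δ * TT P s δ⁻¹ = 1 := by
  ext y
  change TT P s δ (TT P s δ⁻¹ y) = y
  rw [TT_apply, TT_apply]
  have h1 : ∀ i ∈ Finset.range s, δ ^ i • P i (∑ j ∈ Finset.range s, δ⁻¹ ^ j • P j y) =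
      P i y := by
    intro i hi
    rw [map_sum, Finset.sum_eq_single i]
    · rw [map_smul, G.eq, smul_smul, ← mul_pow, mul_inv_cancel₀ hδ, one_pow, one_smul]
    · intro j _ hj
      rw [map_smul, G.ne i j (Ne.symm hj), smul_zero]
    · intro h
      exact absurd hi h
  rw [Finset.sum_congr rfl h1]
  have := congrArg (fun φ : E →L[ℝ] E => φ y) G.sum
  simp only [ContinuousLinearMap.sum_apply] at this
  exact this

/-- Conjugates by the scaling tend to the block diagonal part. -/
theorem TT_tendsto (G : Grad F s P) {b : E →L[ℝ] E} (hb : b ∈ PP F) :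
    Tendsto (fun δ : ℝ => TT P s δ * b * TT P s δ⁻¹) (𝓝[>] 0) (𝓝 (DD P s b)) := by
  have h1 : ∀ δ : ℝ, 0 < δ → TT P s δ * b * TT P s δ⁻¹ =
      ∑ j ∈ Finset.range s, ∑ i ∈ Finset.range s,
        (if i ≤ j then δ ^ (j - i) else 0) • (P j * b * P i) := by
    intro δ hδ
    unfold TT
    rw [Finset.sum_mul, Finset.sum_mul]
    refine Finset.sum_congr rfl fun j _ => ?_
    rw [Finset.mul_sum]
    refine Finset.sum_congr rfl fun i _ => ?_
    rw [smul_mul_assoc, mul_smul_comm, smul_mul_assoc, smul_smul]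
    split_ifs with h
    · congr 1
      rw [inv_pow, inv_mul_eq_div, div_eq_iff (pow_ne_zero _ hδ.ne'), ← pow_add]
      congr 1
      omega
    · have h2 : P j * b * P i = 0 := by
        ext y
        exact G.van j i (by omega) _ (hb i _ (G.mem i y))
      rw [h2, smul_zero, zero_smul]
  have h2 : DD P s b = ∑ j ∈ Finset.range s, ∑ i ∈ Finset.range s,
      (if i ≤ j then (0 : ℝ) ^ (j - i) else 0) • (P j * b * P i) := by
    unfold DD
    refine Finset.sum_congr rfl fun j hj => ?_
    rw [Finset.sum_eq_single j]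
    · simp
    · intro i _ hi
      split_ifs with h
      · rw [zero_pow (by omega), zero_smul]
      · rw [zero_smul]
    · intro h
      exact absurd hj h
  rw [h2]
  have h3 : Tendsto (fun δ : ℝ => ∑ j ∈ Finset.range s, ∑ i ∈ Finset.range s,
        (if i ≤ j then δ ^ (j - i) else 0) • (P j * b * P i)) (𝓝[>] 0)
      (𝓝 (∑ j ∈ Finset.range s, ∑ i ∈ Finset.range s,
      (if i ≤ j then (0 : ℝ) ^ (j - i) else 0) • (P j * b * P i))) := by
    refine tendsto_finset_sum _ fun j _ => tendsto_finset_sum _ fun i _ => ?_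
    refine Tendsto.smul_const ?_ _
    split_ifs with h
    · refine ((continuous_pow (j - i)).tendsto (0 : ℝ)).mono_left nhdsWithin_le_nhds
    · exact tendsto_const_nhds
  refine h3.congr' ?_
  filter_upwards [self_mem_nhdsWithin] with δ hδ
  exact (h1 δ hδ).symm

end Pool.Agent.H14.TA
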