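import Mathlib
import Pool.Agent.H30.T4.Defs
import Pool.Agent.H14.TA.Ser
import Pool.Agent.H14.TA.LemZ

/-! TA2: the Zassenhaus argument. -/

set_option autoImplicit false

namespace Pool.Agent.H14.TA

open NormedSpace Module Pool.Agent.H14.HP Filter Topology

variable {E : Type*} [NormedAddCommGroup E] [NormedSpace ℝ E] {Γ : Type*} [Group Γ]
  {π : Γ →* (E →L[ℝ] E)} {τ : E →L[ℝ] ℝ} {F : ℕ → Submodule ℝ E} {s : ℕ}
  {P : ℕ → (E →L[ℝ] E)}

theorem inv_bound {a b : E →L[ℝ] E} (hab : a * b = 1) (h : ‖a - 1‖ ≤ 1 / 10) :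
    ‖b‖ ≤ 10 / 9 := by
  have e : b = 1 - (a - 1) * b := by
    rw [sub_mul, hab, one_mul]
    abel
  have h1 : ‖b‖ ≤ 1 + 1 / 10 * ‖b‖ := by
    calc ‖b‖ = ‖1 - (a - 1) * b‖ := by rw [← e]
      _ ≤ ‖(1 : E →L[ℝ] E)‖ + ‖(a - 1) * b‖ := norm_sub_le _ _
      _ ≤ 1 + ‖a - 1‖ * ‖b‖ := add_le_add ContinuousLinearMap.norm_id_le (norm_mul_le _ _)
      _ ≤ 1 + 1 / 10 * ‖b‖ := by gcongr
  linarith

theorem comm_bound {a ai b bi : E →L[ℝ] E} (ha : a * ai = 1) (hb : b * bi = 1)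
    (h1 : ‖a - 1‖ ≤ 1 / 10) (h2 : ‖b - 1‖ ≤ 1 / 10) :
    ‖a * b * ai * bi - 1‖ ≤ 1 / 2 * ‖b - 1‖ := by
  have e : a * b * ai * bi - 1 = ((a - 1) * (b - 1) - (b - 1) * (a - 1)) * (ai * bi) := by
    have e1 : (1 : E →L[ℝ] E) = b * a * (ai * bi) := by
      rw [mul_assoc b, ← mul_assoc a, ha, one_mul, hb]
    have e2 : (a - 1) * (b - 1) - (b - 1) * (a - 1) = a * b - b * a := by
      noncomm_ring
    rw [e2, sub_mul, ← e1]
    simp only [mul_assoc]
  have h3 := inv_bound ha h1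
  have h4 := inv_bound hb h2
  have h5 : ‖(a - 1) * (b - 1) - (b - 1) * (a - 1)‖ ≤ 2 * (1 / 10 * ‖b - 1‖) := by
    calc _ ≤ ‖(a - 1) * (b - 1)‖ + ‖(b - 1) * (a - 1)‖ := norm_sub_le _ _
      _ ≤ ‖a - 1‖ * ‖b - 1‖ + ‖b - 1‖ * ‖a - 1‖ := add_le_add (norm_mul_le _ _) (norm_mul_le _ _)
      _ ≤ 1 / 10 * ‖b - 1‖ + ‖b - 1‖ * (1 / 10) := by gcongr
      _ = _ := by ring
  have h6 : ‖ai * bi‖ ≤ 10 / 9 * (10 / 9) := by
    calc _ ≤ ‖ai‖ * ‖bi‖ := norm_mul_le _ _
      _ ≤ _ := by gcongr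
  rw [e]
  calc _ ≤ ‖(a - 1) * (b - 1) - (b - 1) * (a - 1)‖ * ‖ai * bi‖ := norm_mul_le _ _
    _ ≤ 2 * (1 / 10 * ‖b - 1‖) * (10 / 9 * (10 / 9)) := by gcongr
    _ ≤ _ := by nlinarith [norm_nonneg (b - 1)]

theorem comm_seq (σ : Γ →* (E →L[ℝ] E)) (S : Set Γ) (hS : ∀ s ∈ S, ‖σ s - 1‖ ≤ 1 / 10) :
    ∀ k, ∀ u ∈ LN S k, ‖σ u - 1‖ ≤ (1 / 2) ^ k * (1 / 10) := by
  intro k
  induction k with
  | zero =>
    intro u hu
    simpa using hS u hu
  | succ k ih =>
    rintro _ ⟨a, ha, v, hv, rfl⟩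
    have h1 := ih v hv
    have h2 : (1 / 2 : ℝ) ^ k ≤ 1 := pow_le_one₀ (by norm_num) (by norm_num)
    have h3 := comm_bound (a := σ a) (ai := σ a⁻¹) (b := σ v) (bi := σ v⁻¹)
      (by rw [← map_mul, mul_inv_cancel, map_one]) (by rw [← map_mul, mul_inv_cancel, map_one])
      (hS a ha) (by linarith)
    rw [map_mul, map_mul, map_mul, pow_succ]
    linarith

theorem fin_ball (S : Sys π τ) (hx : ∃ x, τ x = 1) (R : ℝ) : {g : Γ | ‖π g‖ ≤ R}.Finite := by
  obtain ⟨x, hx⟩ := hx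
  refine (S.prop (max ‖x‖ (R * ‖x‖))).subset ?_
  intro g hg
  refine ⟨x, hx, le_max_left _ _, ?_⟩
  refine le_trans ?_ (le_max_right _ _)
  exact ((π g).le_opNorm x).trans (mul_le_mul_of_nonneg_right hg (norm_nonneg _))

theorem comm_small (S : Sys π τ) (hx : ∃ x, τ x = 1) (Q : Set Γ)
    (T T' : E →L[ℝ] E) (h1 : T * T' = 1) (h2 : T' * T = 1)
    (hT : ∀ g ∈ Q, ‖T * π g * T' - 1‖ ≤ 1 / 10) :
    ∃ k, ∀ u ∈ LN Q k, π u = 1 := by
  let σ : Γ →* (E →L[ℝ] E) :=
    { toFun := fun g => T * π g * T'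
      map_one' := by rw [map_one, mul_one, h1]
      map_mul' := by
        intro g h
        rw [map_mul]
        calc T * (π g * π h) * T' = T * π g * 1 * π h * T' := by
              simp only [mul_assoc, one_mul]
          _ = T * π g * (T' * T) * π h * T' := by rw [h2]
          _ = _ := by simp only [mul_assoc] }
  have hσ : ∀ g, σ g = T * π g * T' := fun _ => rfl
  have hback : ∀ g, π g = T' * σ g * T := by
    intro g
    rw [hσ]
    calc π g = 1 * π g * 1 := by rw [one_mul, mul_one]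
      _ = (T' * T) * π g * (T' * T) := by rw [h2]
      _ = _ := by simp only [mul_assoc]
  have hseq := comm_seq σ Q hT
  have hB := fin_ball S hx (‖T'‖ * 2 * ‖T‖)
  have hev : ∀ᶠ k : ℕ in atTop, ∀ g ∈ {g : Γ | ‖π g‖ ≤ ‖T'‖ * 2 * ‖T‖},
      ‖σ g - 1‖ ≤ (1 / 2) ^ k * (1 / 10) → π g = 1 := by
    rw [eventually_all_finite hB]
    intro g _
    by_cases h : σ g = 1
    · filter_upwards with k _
      rw [hback, h, mul_one, h2]
    · have hpos : 0 < ‖σ g - 1‖ := norm_pos_iff.2 (sub_ne_zero.2 h)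
      have ht : Tendsto (fun k : ℕ => (1 / 2 : ℝ) ^ k * (1 / 10)) atTop (𝓝 (0 * (1 / 10))) :=
        (tendsto_pow_atTop_nhds_zero_of_lt_one (by norm_num) (by norm_num)).mul_const _
      rw [zero_mul] at ht
      filter_upwards [ht.eventually_lt_const hpos] with k hk hk2
      exact absurd hk2 (not_le.2 hk)
  obtain ⟨k, hk⟩ := hev.exists
  refine ⟨k, fun u hu => ?_⟩
  have h3 := hseq k u hu
  refine hk u ?_ h3
  have h4 : (1 / 2 : ℝ) ^ k ≤ 1 := pow_le_one₀ (by norm_num) (by norm_num)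
  have h5 : ‖σ u‖ ≤ 2 := by
    calc ‖σ u‖ = ‖1 + (σ u - 1)‖ := by rw [add_sub_cancel]
      _ ≤ ‖(1 : E →L[ℝ] E)‖ + ‖σ u - 1‖ := norm_add_le _ _
      _ ≤ 1 + 1 := add_le_add ContinuousLinearMap.norm_id_le (by linarith)
      _ = 2 := by norm_num
  change ‖π u‖ ≤ _
  rw [hback]
  calc ‖T' * σ u * T‖ ≤ ‖T' * σ u‖ * ‖T‖ := norm_mul_le _ _
    _ ≤ (‖T'‖ * ‖σ u‖) * ‖T‖ := by
        gcongr
        exact norm_mul_le _ _
    _ ≤ (‖T'‖ * 2) * ‖T‖ := by gcongr

/-- Lemma Z for continuous maps and an arbitrary set. -/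
theorem lemZ_cont [FiniteDimensional ℝ E] (π : Γ →* (E →L[ℝ] E)) (S : Set Γ)
    (hnil : ∀ s ∈ S, IsNilpotent (π s - 1)) (hL : ∃ L, ∀ g ∈ LN S L, π g = 1) (l : List Γ)
    (hl : ∀ s ∈ l, s ∈ S) (hlen : finrank ℝ E ≤ l.length) :
    (l.map (fun s => π s - 1)).prod = 0 := by
  obtain ⟨L, hL⟩ := hL
  obtain ⟨ρ, hρ⟩ : ∃ ρ : Subgroup.closure S →* Module.End ℝ E,
      ∀ g, ∀ y, ρ g y = π g y := by
    exact ⟨{ toFun := fun g => ((π g : E →L[ℝ] E) : E →ₗ[ℝ] E)
             map_one' := by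
               ext y
               simp
             map_mul' := by
               intro g h
               ext y
               simp }, fun _ _ => rfl⟩
  have hpow : ∀ (g : Subgroup.closure S) (m : ℕ) (y : E),
      ((ρ g - 1) ^ m) y = ((π g - 1) ^ m) y := by
    intro g m
    induction m with
    | zero => intro y; rfl
    | succ m ih =>
      intro y
      rw [pow_succ, pow_succ]
      change ((ρ g - 1) ^ m) ((ρ g - 1) y) = ((π g - 1) ^ m) ((π g - 1) y)
      rw [ih]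
      change ((π g - 1) ^ m) (ρ g y - y) = ((π g - 1) ^ m) (π g y - y)
      rw [hρ]
  obtain ⟨l', hl'⟩ : ∃ l' : List (Subgroup.closure S), l'.map Subtype.val = l := by
    clear hlen
    induction l with
    | nil => exact ⟨[], rfl⟩
    | cons g l ih =>
      obtain ⟨l', h⟩ := ih (fun s hs => hl s (List.mem_cons_of_mem _ hs))
      have hg : g ∈ Subgroup.closure S := Subgroup.subset_closure (hl g List.mem_cons_self)
      refine ⟨⟨g, hg⟩ :: l', ?_⟩
      rw [List.map_cons, h]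
  have hlen' : finrank ℝ E ≤ l'.length := by
    rw [← hl', List.length_map] at hlen
    exact hlen
  have hmap : ∀ k, ∀ g ∈ LN ((fun g : Subgroup.closure S => (g : Γ)) ⁻¹' S) k,
      (g : Γ) ∈ LN S k := by
    intro k
    induction k with
    | zero => intro g hg; exact hg
    | succ k ih =>
      rintro _ ⟨a, ha, v, hv, rfl⟩
      exact ⟨a, ha, v, ih v hv, rfl⟩
  have h1 := prod_zero (S := (fun g : Subgroup.closure S => (g : Γ)) ⁻¹' S)
    Subgroup.closure_closure_coe_preimage L (finrank ℝ E) E ρ rfl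
    (by
      intro g hg
      obtain ⟨N, hN⟩ := hnil g hg
      refine ⟨N, ?_⟩
      ext y
      rw [hpow, hN]
      rfl)
    (by
      intro g hg
      ext y
      rw [hρ, hL _ (hmap L g hg)]
      rfl) l' hlen'
  ext y
  have h2 : ∀ (l' : List (Subgroup.closure S)) (y : E),
      ((l'.map (fun g => ρ g - 1)).prod) y =
        (((l'.map Subtype.val).map (fun s => π s - 1)).prod) y := by
    intro l'
    induction l' with
    | nil => intro y; rfl
    | cons g l' ih =>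
      intro y
      rw [List.map_cons, List.prod_cons, List.map_cons, List.map_cons, List.prod_cons]
      change (ρ g - 1) (((l'.map (fun g => ρ g - 1)).prod) y) = (π g - 1)
        ((((l'.map Subtype.val).map (fun s => π s - 1)).prod) y)
      rw [ih]
      change ρ g _ - _ = π g _ - _
      rw [hρ]
      rfl
  rw [← hl', ← h2, h1]
  rfl

theorem DD_prod (G : Grad F s P) {ι : Type*} (l : List ι) (f : ι → (E →L[ℝ] E))
    (hf : ∀ i, f i ∈ PP F) : (l.map f).prod ∈ PP F ∧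
      DD P s (l.map f).prod = (l.map (fun i => DD P s (f i))).prod := by
  induction l with
  | nil =>
    simp only [List.map_nil, List.prod_nil]
    exact ⟨PP_one, DD_one G⟩
  | cons i l ih =>
    simp only [List.map_cons, List.prod_cons]
    exact ⟨PP_mul (hf i) ih.1, by rw [DD_mul G (hf i) ih.1, ih.2]⟩

theorem prod_smul_aux {ι : Type*} (l : List ι) (A B : ι → (E →L[ℝ] E)) (t : ℝ)
    (c : E →L[ℝ] E) : (l.map (fun y => A y * (t • c) * B y)).prod =
      t ^ l.length • (l.map (fun y => A y * c * B y)).prod := by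
  induction l with
  | nil => simp
  | cons i l ih =>
    simp only [List.map_cons, List.prod_cons, List.length_cons]
    have h : A i * (t • c) * B i = t • (A i * c * B i) := by
      rw [mul_smul_comm, smul_mul_assoc]
    rw [ih, h, smul_mul_smul_comm, pow_succ']

/-- The Zassenhaus lemma. -/
theorem zass [FiniteDimensional ℝ E] (S : Sys π τ) (hx : ∃ x, τ x = 1)
    (top : F 0 = ⊤) (bot : F s = ⊥) (anti : ∀ i, F (i + 1) ≤ F i)
    (inv : ∀ i g, ∀ y ∈ F i, π g y ∈ F i)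
    (irr : ∀ i (W : Submodule ℝ E), (∀ g, ∀ y ∈ W, π g y ∈ W) → F (i + 1) ≤ W → W ≤ F i →
      W = F (i + 1) ∨ W = F i) :
    ∃ ε : ℝ, 0 < ε ∧ ∀ g : Γ, IsNilpotent (π g - 1) → (∃ j ∈ JJ F, ‖π g - 1 - j‖ < ε) →
      π g - 1 ∈ JJ F := by
  obtain ⟨P, G⟩ := exists_grad top bot anti
  by_contra hcon
  push Not at hcon
  have hseq : ∀ n : ℕ, ∃ g : Γ, IsNilpotent (π g - 1) ∧
      (∃ j ∈ JJ F, ‖π g - 1 - j‖ < 1 / ((n : ℝ) + 1)) ∧ π g - 1 ∉ JJ F := by
    intro n
    obtain ⟨g, h1, h2, h3⟩ := hcon (1 / ((n : ℝ) + 1)) (by positivity)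
    exact ⟨g, h1, h2, h3⟩
  choose g hg1 hg2 hg3 using hseq
  choose j hj1 hj2 using hg2
  have hPP : ∀ y : Γ, π y ∈ PP F := fun y i z hz => inv i y z hz
  have hPP1 : ∀ y : Γ, π y - 1 ∈ PP F := fun y => (PP F).sub_mem (hPP y) PP_one
  obtain ⟨c, hc⟩ : ∃ c : ℕ → (E →L[ℝ] E), c = fun n => DD P s (π (g n) - 1) := ⟨_, rfl⟩
  have hc0 : Tendsto c atTop (𝓝 0) := by
    have h1 : Tendsto (fun n => π (g n) - 1 - j n) atTop (𝓝 0) := by
      refine squeeze_zero_norm (fun n => (hj2 n).le) ?_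
      exact tendsto_one_div_add_atTop_nhds_zero_nat
    have h2 := ((DD_cont P s).tendsto 0).comp h1
    rw [DD_zero] at h2
    refine h2.congr fun n => ?_
    rw [hc]
    change DD P s (π (g n) - 1 - j n) = DD P s (π (g n) - 1)
    rw [DD_sub, DD_JJ G (hj1 n), sub_zero]
  have hcne : ∀ n, c n ≠ 0 := by
    intro n h
    rw [hc] at h
    exact hg3 n (JJ_of_DD G bot anti (hPP1 _) h)
  -- the limit direction
  obtain ⟨X, hX1, φ, hφ, hφX⟩ := (isCompact_sphere (0 : E →L[ℝ] E) 1).tendsto_subseq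
    (x := fun n => ‖c n‖⁻¹ • c n) (by
      intro n
      rw [mem_sphere_zero_iff_norm, norm_smul, norm_inv, norm_norm]
      exact inv_mul_cancel₀ (norm_ne_zero_iff.2 (hcne n)))
  rw [mem_sphere_zero_iff_norm] at hX1
  have hXD : DD P s X = X := by
    have h1 := ((DD_cont P s).tendsto X).comp hφX
    refine tendsto_nhds_unique h1 (hφX.congr fun n => ?_)
    change ‖c (φ n)‖⁻¹ • c (φ n) = DD P s (‖c (φ n)‖⁻¹ • c (φ n))
    rw [DD_smul, hc]
    change _ = _ • DD P s (DD P s _)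
    rw [DD_DD G]
  have hXP : X ∈ PP F := by
    rw [← hXD]
    exact DD_mem G anti X
  -- products vanish
  have hone : ∀ y : Γ, DD P s (π y) * DD P s (π y⁻¹) = 1 := by
    intro y
    rw [← DD_mul G (hPP y) (hPP y⁻¹), ← map_mul, mul_inv_cancel, map_one, DD_one G]
  have hcj : ∀ (y : Γ) (n : ℕ), DD P s (π (y * g n * y⁻¹) - 1) =
      DD P s (π y) * c n * DD P s (π y⁻¹) := by
    intro y n
    have h1 : π (y * g n * y⁻¹) - 1 = π y * (π (g n) - 1) * π y⁻¹ := by
      rw [map_mul, map_mul, mul_sub, sub_mul, mul_one, ← map_mul π y y⁻¹, mul_inv_cancel,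
        map_one]
    rw [h1, DD_mul G (PP_mul (hPP y) (hPP1 _)) (hPP _), DD_mul G (hPP y) (hPP1 _), hc]
  have hprod : ∀ l : List Γ, l.length = finrank ℝ E →
      ∀ᶠ n in atTop, (l.map (fun y => DD P s (π y) * c n * DD P s (π y⁻¹))).prod = 0 := by
    intro l hl
    have hfin : {y : Γ | y ∈ l}.Finite := List.finite_toSet l
    have hev : ∀ᶠ n in atTop, ∀ y ∈ {y : Γ | y ∈ l},
        ‖DD P s (π y) * c n * DD P s (π y⁻¹)‖ < 1 / 10 := by
      rw [eventually_all_finite hfin]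
      intro y _
      have h1 : Tendsto (fun n => DD P s (π y) * c n * DD P s (π y⁻¹)) atTop
          (𝓝 (DD P s (π y) * 0 * DD P s (π y⁻¹))) :=
        (tendsto_const_nhds.mul hc0).mul tendsto_const_nhds
      rw [mul_zero, zero_mul] at h1
      have h2 := h1.norm
      rw [norm_zero] at h2
      exact h2.eventually_lt_const (by norm_num)
    filter_upwards [hev] with n hn
    have hev2 : ∀ᶠ δ : ℝ in 𝓝[>] 0, ∀ y ∈ {y : Γ | y ∈ l},
        ‖TT P s δ * π (y * g n * y⁻¹) * TT P s δ⁻¹ - 1‖ < 1 / 10 := by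
      rw [eventually_all_finite hfin]
      intro y hy
      have h1 := ((TT_tendsto G (hPP (y * g n * y⁻¹))).sub_const 1).norm
      have h2 : DD P s (π (y * g n * y⁻¹)) - 1 = DD P s (π y) * c n * DD P s (π y⁻¹) := by
        rw [← hcj, DD_sub, DD_one G]
      rw [h2] at h1
      exact h1.eventually_lt_const (hn y hy)
    obtain ⟨δ, hδ1, hδ2⟩ := (hev2.and self_mem_nhdsWithin).exists
    have hδ3 : δ ≠ 0 := ne_of_gt hδ2
    have hk := comm_small S hx {z | ∃ y ∈ l, z = y * g n * y⁻¹} (TT P s δ) (TT P s δ⁻¹)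
      (TT_mul G hδ3) (by
        have := TT_mul G (inv_ne_zero hδ3)
        rwa [inv_inv] at this)
      (by
        rintro _ ⟨y, hy, rfl⟩
        exact (hδ1 y hy).le)
    have h1 := lemZ_cont π {z | ∃ y ∈ l, z = y * g n * y⁻¹}
      (by
        rintro _ ⟨y, _, rfl⟩
        obtain ⟨N, hN⟩ := hg1 n
        refine ⟨N, ?_⟩
        have h1 : ∀ m : ℕ, (π (y * g n * y⁻¹) - 1) ^ m = π y * (π (g n) - 1) ^ m * π y⁻¹ := by
          intro m
          have hyy : π y⁻¹ * π y = 1 := by rw [← map_mul, inv_mul_cancel, map_one]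
          have hyy' : π y * π y⁻¹ = 1 := by rw [← map_mul, mul_inv_cancel, map_one]
          induction m with
          | zero => rw [pow_zero, pow_zero, mul_one, hyy']
          | succ m ih =>
            rw [pow_succ, pow_succ, ih]
            have h2 : π (y * g n * y⁻¹) - 1 = π y * (π (g n) - 1) * π y⁻¹ := by
              rw [map_mul, map_mul, mul_sub, sub_mul, mul_one, hyy']
            rw [h2]
            calc π y * (π (g n) - 1) ^ m * π y⁻¹ * (π y * (π (g n) - 1) * π y⁻¹) =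
                π y * (π (g n) - 1) ^ m * (π y⁻¹ * π y) * (π (g n) - 1) * π y⁻¹ := by
                  simp only [mul_assoc]
              _ = _ := by rw [hyy, mul_one]; simp only [mul_assoc]
        rw [h1, hN, mul_zero, zero_mul]) hk
      (l.map (fun y => y * g n * y⁻¹))
      (by
        intro z hz
        rw [List.mem_map] at hz
        obtain ⟨y, hy, rfl⟩ := hz
        exact ⟨y, hy, rfl⟩)
      (by rw [List.length_map, hl])
    rw [List.map_map] at h1
    have h2 := (DD_prod G l (fun y => π (y * g n * y⁻¹) - 1) (fun y => hPP1 _)).2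
    have h3 : (l.map ((fun s => π s - 1) ∘ fun y => y * g n * y⁻¹)) =
        l.map (fun y => π (y * g n * y⁻¹) - 1) := rfl
    rw [h3] at h1
    rw [h1, DD_zero] at h2
    rw [h2]
    congr 1
    refine List.map_congr_left fun y _ => ?_
    exact (hcj y n).symm
  have hlim : ∀ l : List Γ, l.length = finrank ℝ E →
      (l.map (fun y => π y * X * π y⁻¹)).prod ∈ JJ F := by
    intro l hl
    have hcont : Continuous (fun Z : E →L[ℝ] E =>
        (l.map (fun y => DD P s (π y) * Z * DD P s (π y⁻¹))).prod) :=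
      continuous_list_prod _ fun y _ => (continuous_const.mul continuous_id).mul continuous_const
    have h1 := (hcont.tendsto X).comp hφX
    have h2 : (l.map (fun y => DD P s (π y) * X * DD P s (π y⁻¹))).prod = 0 := by
      refine tendsto_nhds_unique h1 ?_
      refine tendsto_const_nhds.congr' ?_
      filter_upwards [hφ.tendsto_atTop.eventually (hprod l hl)] with n hn
      change 0 = (l.map (fun y => DD P s (π y) * (‖c (φ n)‖⁻¹ • c (φ n)) * DD P s (π y⁻¹))).prod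
      rw [prod_smul_aux, hn, smul_zero]
    have h3 := DD_prod G l (fun y => π y * X * π y⁻¹)
      (fun y => PP_mul (PP_mul (hPP y) hXP) (hPP _))
    refine JJ_of_DD G bot anti h3.1 ?_
    rw [h3.2, ← h2]
    congr 1
    refine List.map_congr_left fun y _ => ?_
    rw [DD_mul G (PP_mul (hPP y) hXP) (hPP _), DD_mul G (hPP y) hXP, hXD]
  -- a block on which `X` is not zero
  have hXJ : X ∉ JJ F := by
    intro h
    have := DD_JJ G h
    rw [hXD] at this
    rw [this, norm_zero] at hX1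
    exact zero_ne_one hX1
  rw [mem_JJ] at hXJ
  push Not at hXJ
  obtain ⟨i, y₁, hy₁, hXy₁⟩ := hXJ
  have hex : ∃ r, ∀ l : List Γ, l.length = r → ∀ y ∈ F i,
      ((l.map (fun y => π y * X * π y⁻¹)).prod) y ∈ F (i + 1) :=
    ⟨finrank ℝ E, fun l hl y hy => hlim l hl i y hy⟩
  classical
  obtain ⟨r, hr⟩ : ∃ r, r = Nat.find hex := ⟨_, rfl⟩
  have hr1 : ∀ l : List Γ, l.length = r → ∀ y ∈ F i,
      ((l.map (fun y => π y * X * π y⁻¹)).prod) y ∈ F (i + 1) := by
    rw [hr]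
    exact Nat.find_spec hex
  have hr0 : r ≠ 0 := by
    rintro rfl
    have h1 := hr1 [] rfl (X y₁) (hXP i y₁ hy₁)
    exact hXy₁ h1
  obtain ⟨r, rfl⟩ := Nat.exists_eq_succ_of_ne_zero hr0
  have hr2 := Nat.find_min hex (m := r) (by omega)
  push Not at hr2
  obtain ⟨l, hl, y₂, hy₂, hv⟩ := hr2
  obtain ⟨v, hvdef⟩ : ∃ v, v = ((l.map (fun y => π y * X * π y⁻¹)).prod) y₂ := ⟨_, rfl⟩
  rw [← hvdef] at hv
  have hvF : v ∈ F i := by
    rw [hvdef]
    exact (DD_prod G l (fun y => π y * X * π y⁻¹)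
      (fun y => PP_mul (PP_mul (hPP y) hXP) (hPP _))).1 i y₂ hy₂
  have hvk : ∀ h : Γ, π h (X (π h⁻¹ v)) ∈ F (i + 1) := by
    intro h
    have h1 := hr1 (h :: l) (by rw [List.length_cons, hl]) y₂ hy₂
    rw [List.map_cons, List.prod_cons] at h1
    rw [hvdef]
    exact h1
  let W : Submodule ℝ E :=
    { carrier := {v | v ∈ F i ∧ ∀ h : Γ, π h (X (π h⁻¹ v)) ∈ F (i + 1)}
      add_mem' := by
        rintro a b ⟨ha, ha'⟩ ⟨hb, hb'⟩
        refine ⟨(F i).add_mem ha hb, fun h => ?_⟩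
        rw [map_add, map_add, map_add]
        exact (F (i + 1)).add_mem (ha' h) (hb' h)
      zero_mem' := by
        refine ⟨(F i).zero_mem, fun h => ?_⟩
        rw [map_zero, map_zero, map_zero]
        exact (F (i + 1)).zero_mem
      smul_mem' := by
        rintro t a ⟨ha, ha'⟩
        refine ⟨(F i).smul_mem t ha, fun h => ?_⟩
        rw [map_smul, map_smul, map_smul]
        exact (F (i + 1)).smul_mem t (ha' h) }
  have hWm : ∀ z, z ∈ W ↔ z ∈ F i ∧ ∀ h : Γ, π h (X (π h⁻¹ z)) ∈ F (i + 1) := fun _ => Iff.rfl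
  have hWinv : ∀ h : Γ, ∀ z ∈ W, π h z ∈ W := by
    intro h z hz
    rw [hWm] at hz ⊢
    refine ⟨inv i h z hz.1, fun k => ?_⟩
    have h1 := inv (i + 1) h _ (hz.2 (h⁻¹ * k))
    have h2 : π k (X (π k⁻¹ (π h z))) = π h (π (h⁻¹ * k) (X (π (h⁻¹ * k)⁻¹ z))) := by
      have e1 : π (h⁻¹ * k)⁻¹ z = π k⁻¹ (π h z) := by
        rw [mul_inv_rev, inv_inv, map_mul]
        rfl
      have e2 : ∀ u, π h (π (h⁻¹ * k) u) = π k u := by
        intro u
        change (π h * π (h⁻¹ * k)) u = π k u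
        rw [← map_mul, mul_inv_cancel_left]
      rw [e2, e1]
    rw [h2]
    exact h1
  have hW1 : F (i + 1) ≤ W := by
    intro z hz
    rw [hWm]
    exact ⟨anti i hz, fun h => inv _ _ _ (hXP _ _ (inv _ _ _ hz))⟩
  have hW2 : W ≤ F i := fun z hz => ((hWm z).1 hz).1
  rcases irr i W hWinv hW1 hW2 with h | h
  · apply hv
    rw [← h, hWm]
    exact ⟨hvF, hvk⟩
  · apply hXy₁
    have h1 : y₁ ∈ W := by rw [h]; exact hy₁
    have h2 := ((hWm y₁).1 h1).2 1
    rw [inv_one, map_one] at h2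
    exact h2

end Pool.Agent.H14.TA

namespace Pool.Agent.H30.T4

open NormedSpace Module Pool.Agent.H71.AU Pool.Agent.H14.HP Pool.Agent.H14.HR

/-- T4-6. -/
theorem zass {E : Type*} [NormedAddCommGroup E] [NormedSpace ℝ E] [CompleteSpace E]
    [FiniteDimensional ℝ E] {Γ : Type*} [Group Γ] {π : Γ →* (E →L[ℝ] E)} {τ : E →L[ℝ] ℝ}
    (S : Sys π τ) (hx : ∃ x, τ x = 1) {F : ℕ → Submodule ℝ E} {s : ℕ}
    (hF : Flg π F s) :
    ∃ ε : ℝ, 0 < ε ∧ ∀ γ : Γ, IsNilpotent (π γ - 1) → (∃ j ∈ JJ F, ‖π γ - 1 - j‖ < ε) →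
      π γ - 1 ∈ JJ F :=
  Pool.Agent.H14.TA.zass S hx hF.top hF.bot hF.anti hF.inv hF.irr

end Pool.Agent.H30.T4
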